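import Pool.Agent.helper62.VN.SpecE

/-!
# vne:NTP (MP_07c750_an): the stable leaf function `stn`
-/

set_option autoImplicit false

open scoped MatrixGroups ContDiff Topology UpperHalfPlane
open UpperHalfPlane MeasureTheory Filter Set

namespace Pool.Agent.VNE

open Pool.Agent.RS Pool.Agent.VQE

noncomputable section

theorem NTP_mono {ε ε' : ℝ} {X : Fd} {g : SL(2, ℝ)} {J W : ℝ → ℝ} (h : SMN ε X g J W) (hε : ε ≤ ε') : SMN ε' X g J W :=
  ⟨fun T => ⟨(h.pr T).dJ, (h.pr T).dW, fun t ht => ((h.pr T).bd t ht).trans hε⟩, h.neg⟩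

/-- shift of a stable pair -/
theorem NTP_shift {p q : SL(2, ℝ) → ℝ} {ε s : ℝ} {X : Fd} {g : SL(2, ℝ)} {J W : ℝ → ℝ} (hX : Flw p q X.f) (h : SMN ε X g J W) (hs : 0 ≤ s) :
    SMN ε X (X.f s g) (fun t => J (t + s)) (fun t => W (t + s)) := by
  refine ⟨fun T => ⟨fun t ht => ?_, fun t ht => ?_, fun t ht => ?_⟩, fun t ht => ?_⟩
  · have h1 := (h.pr (T + s)).dJ (t + s) ⟨by linarith [ht.1], by linarith [ht.2]⟩
    rw [hX.add] at h1
    exact h1.comp_add_const t s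
  · have h1 := (h.pr (T + s)).dW (t + s) ⟨by linarith [ht.1], by linarith [ht.2]⟩
    rw [hX.add] at h1
    exact h1.comp_add_const t s
  · exact (h.pr (T + s)).bd (t + s) ⟨by linarith [ht.1], by linarith [ht.2]⟩
  · exact h.neg (t + s) (by linarith)

/-- convergence in `SL(2, ℝ)` -/
theorem NTP_tend {α : Type} {l : Filter α} {F : α → SL(2, ℝ)} {h : SL(2, ℝ)} (hF : Tendsto (fun a => nm (h⁻¹ * F a)) l (𝓝 0)) :
    Tendsto F l (𝓝 h) := by
  have h1 : Tendsto (fun a => h⁻¹ * F a) l (𝓝 1) := by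
    refine tendsto_subtype_rng.2 ?_
    refine tendsto_pi_nhds.2 fun i => ?_
    refine tendsto_pi_nhds.2 fun j => ?_
    rw [tendsto_iff_norm_sub_tendsto_zero]
    refine squeeze_zero (fun _ => norm_nonneg _) (fun a => ?_) hF
    rw [Real.norm_eq_abs]
    fin_cases i <;> fin_cases j
    · exact le_trans (by simp) ((le_max_left _ _).trans (le_max_left _ _) : |(h⁻¹ * F a).1 0 0 - 1| ≤ nm (h⁻¹ * F a))
    · exact le_trans (by simp) ((le_max_right _ _).trans (le_max_left _ _) : |(h⁻¹ * F a).1 0 1| ≤ nm (h⁻¹ * F a))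
    · exact le_trans (by simp) ((le_max_left _ _).trans (le_max_right _ _) : |(h⁻¹ * F a).1 1 0| ≤ nm (h⁻¹ * F a))
    · exact le_trans (by simp) ((le_max_right _ _).trans (le_max_right _ _) : |(h⁻¹ * F a).1 1 1 - 1| ≤ nm (h⁻¹ * F a))
  have h2 : Tendsto (fun a => h * (h⁻¹ * F a)) l (𝓝 (h * 1)) := tendsto_const_nhds.mul h1
  simpa using h2

/-- mean values -/
theorem NTP_mv {f : ℝ → ℝ} {s B : ℝ} (hs : 0 ≤ s) (h : ∀ t ∈ Icc (0 : ℝ) s, ∃ f', HasDerivAt f f' t ∧ |f'| ≤ B) : |f s - f 0| ≤ B * s := by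
  have h1 := Convex.norm_image_sub_le_of_norm_hasDerivWithin_le (f := f) (f' := fun t => deriv f t) (C := B) (s := Icc (0 : ℝ) s) (x := 0) (y := s)
    (fun t ht => by
      obtain ⟨f', h2, -⟩ := h t ht
      exact h2.differentiableAt.hasDerivAt.hasDerivWithinAt)
    (fun t ht => by
      obtain ⟨f', h2, h3⟩ := h t ht
      rw [h2.deriv, Real.norm_eq_abs]
      exact h3) (convex_Icc 0 s) ⟨le_rfl, hs⟩ ⟨hs, le_rfl⟩
  rw [Real.norm_eq_abs, Real.norm_eq_abs, sub_zero, abs_of_nonneg hs] at h1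
  exact h1

theorem NTP_lsy {K' : ℝ} {η P k β χ : ℝ → ℝ} {a b t : ℝ} (hK' : 1 ≤ K') (h : LSy K' η P k β χ a b) (ht : t ∈ Icc a b) :
    ∃ β' χ' : ℝ, HasDerivAt β β' t ∧ HasDerivAt χ χ' t ∧ |β'| ≤ (K' + 1) * (|β t| + |χ t|) ∧ |χ'| ≤ (K' + 1) * (|β t| + |χ t|) := by
  obtain ⟨β', χ', h1, h2, h3, h4⟩ := h.d t ht
  obtain ⟨b1, b2, b3, b4, b5, b6⟩ := h.bd t ht
  have hη : η t ≤ 1 := b6.trans (by rw [div_le_one (by positivity)]; linarith)
  have hP : 0 ≤ P t := le_trans (by positivity) b1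
  have hk : 0 ≤ k t := le_trans (by positivity) b3
  have n0 := abs_nonneg (β t)
  have n1 := abs_nonneg (χ t)
  have e1 : η t * (|β t| + |χ t|) ≤ 1 * (|β t| + |χ t|) := mul_le_mul_of_nonneg_right hη (by positivity)
  refine ⟨β', χ', h1, h2, ?_, ?_⟩
  · have e2 : |β'| ≤ |β' - P t * χ t| + |P t * χ t| := by
      have := abs_add_le (β' - P t * χ t) (P t * χ t)
      rwa [sub_add_cancel] at this
    have e3 : |P t * χ t| ≤ K' * |χ t| := by
      rw [abs_mul, abs_of_nonneg hP]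
      exact mul_le_mul_of_nonneg_right b2 n1
    have e4 : 0 ≤ K' * |β t| := by positivity
    linarith
  · have e2 : |χ'| ≤ |χ' - k t * β t| + |k t * β t| := by
      have := abs_add_le (χ' - k t * β t) (k t * β t)
      rwa [sub_add_cancel] at this
    have e3 : |k t * β t| ≤ K' * |β t| := by
      rw [abs_mul, abs_of_nonneg hk]
      exact mul_le_mul_of_nonneg_right b4 n0
    have e4 : 0 ≤ K' * |χ t| := by positivity
    linarith

theorem NTP_proof (h0 : VQE.NMB_stmt) (h1 : NCH_stmt) (h2 : NES_stmt) (h3 : NST_stmt) (h4 : NLT_stmt) (h5 : NDM_stmt) (h6 : NPL_stmt) :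
    NTP_stmt := by
  intro K hK
  obtain ⟨C1, hC1, hNCH⟩ := h1 K hK
  obtain ⟨C2, ε2, hC2, hε2, hNES⟩ := h2 K hK
  obtain ⟨C3, μ, ε3, hC3, hμ, hε3, hNST⟩ := h3 K hK
  obtain ⟨C4, ε4, hC4, hε4, hNLT⟩ := h4 K hK
  obtain ⟨C5, hC5, hNDM⟩ := h5 K hK
  obtain ⟨C6, ε6, hC6, hε6, hNPL⟩ := h6 K hK
  obtain ⟨Dc, hDc⟩ : ∃ Dc : ℝ, Dc = (1 + C3) * ((K ^ 2 + 1) * (C3 * (1 + C3))) := ⟨_, rfl⟩
  have hDc0 : 0 ≤ Dc := by rw [hDc]; positivity
  obtain ⟨C, hC⟩ : ∃ C : ℝ, C = C2 + C3 + C1 * (1 + C3) + 2 * C3 * (C4 * C5) + C4 * C5 + Dc * C5 := ⟨_, rfl⟩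
  have p1 : 0 ≤ C1 * (1 + C3) := by positivity
  have p2 : 0 ≤ 2 * C3 * (C4 * C5) := by positivity
  have p3 : 0 ≤ C4 * C5 := by positivity
  have p4 : 0 ≤ Dc * C5 := by positivity
  have hCC1 : C1 * (1 + C3) ≤ C := by linarith
  have hCC2 : C2 ≤ C := by linarith
  have hCC3 : C3 ≤ C := by linarith
  have hCC4 : 2 * C3 * (C4 * C5) ≤ C := by linarith
  have hCC5 : C4 * C5 + Dc * C5 ≤ C := by linarith
  have hC0 : 1 ≤ C := by linarith
  refine ⟨C, min 1 (min (min ε2 ε3) (min ε4 ε6)), hC0, by positivity, ?_⟩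
  intro ε X hε hεε hX
  have e1 : ε ≤ 1 := hεε.trans (min_le_left _ _)
  have e2 : ε ≤ ε2 := hεε.trans ((min_le_right _ _).trans ((min_le_left _ _).trans (min_le_left _ _)))
  have e3 : ε ≤ ε3 := hεε.trans ((min_le_right _ _).trans ((min_le_left _ _).trans (min_le_right _ _)))
  have e4 : ε ≤ ε4 := hεε.trans ((min_le_right _ _).trans ((min_le_right _ _).trans (min_le_left _ _)))
  have e6 : ε ≤ ε6 := hεε.trans ((min_le_right _ _).trans ((min_le_right _ _).trans (min_le_right _ _)))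
  -- the stable pairs
  have key : ∀ (g : SL(2, ℝ)) (j : ℝ), |j| ≤ ε / C → ∃ J W : ℝ → ℝ, SMN ε X g J W ∧ J 0 = j ∧ W 0 = stn ε X g j := by
    intro g j hj
    have hj2 : |j| ≤ ε / C2 := hj.trans (div_le_div_of_nonneg_left hε.le (by linarith) hCC2)
    obtain ⟨J, W, hS, hJ⟩ := hNES ε X g j hε e2 hX hj2
    exact Classical.epsilon_spec (p := fun w : ℝ => ∃ J W : ℝ → ℝ, SMN ε X g J W ∧ J 0 = j ∧ W 0 = w) ⟨W 0, J, W, hS, hJ, rfl⟩
  have bds : ∀ (g : SL(2, ℝ)) (j : ℝ), |j| ≤ ε / C → |stn ε X g j| ≤ C3 * |j| ∧ |j| ≤ C3 * |stn ε X g j| ∧ j * stn ε X g j ≤ 0 := by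
    intro g j hj
    obtain ⟨J, W, hS, hJ, hW⟩ := key g j hj
    obtain ⟨-, b2, b3, -⟩ := (hNST ε X g J W hε e3 hX hS).1 0 le_rfl
    have b4 := hS.neg 0 le_rfl
    rw [hJ, hW] at b2 b3 b4
    exact ⟨b2, b3, b4⟩
  have lip : ∀ (g : SL(2, ℝ)) (j j' : ℝ), |j| ≤ ε / C → |j'| ≤ ε / C → |stn ε X g j - stn ε X g j'| ≤ C3 * |j - j'| := by
    intro g j j' hj hj'
    obtain ⟨J, W, hS, hJ, hW⟩ := key g j hj
    obtain ⟨J', W', hS', hJ', hW'⟩ := key g j' hj'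
    have b := ((hNST ε X g J W hε e3 hX hS).2 J' W' hS').1
    rwa [hJ, hW, hJ', hW'] at b
  -- shift along the flow
  have sh : ∀ (h : SL(2, ℝ)) (j s : ℝ), |j| ≤ ε / C → 0 ≤ s → |stn ε X (X.f s h) j - stn ε X h j| ≤ Dc * (|j| * s) := by
    intro h j s hj hs
    obtain ⟨J, W, hS, hJ, hW⟩ := key h j hj
    obtain ⟨J', W', hS', hJ', hW'⟩ := key (X.f s h) j hj
    have b := ((hNST ε X (X.f s h) J' W' hε e3 hX hS').2 _ _ (NTP_shift hX.flw hS hs)).1
    simp only [zero_add] at b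
    rw [hJ', hW'] at b
    have hdec : ∀ t ∈ Icc (0 : ℝ) s, |J t| + |W t| ≤ C3 * (1 + C3) * |j| := by
      intro t ht
      have d1 := ((hNST ε X h J W hε e3 hX hS).1 t ht.1).1
      have d2 := ((hNST ε X h J W hε e3 hX hS).1 0 le_rfl).2.1
      rw [hJ] at d1 d2
      have d3 : Real.exp (-(μ * t)) ≤ 1 := Real.exp_le_one_iff.2 (by have := mul_nonneg hμ.le ht.1; linarith)
      have d4 : 0 ≤ |j| + |W 0| := by positivity
      calc |J t| + |W t| ≤ C3 * Real.exp (-(μ * t)) * (|j| + |W 0|) := d1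
        _ ≤ C3 * 1 * (|j| + |W 0|) := by gcongr
        _ ≤ C3 * 1 * (|j| + C3 * |j|) := by gcongr
        _ = C3 * (1 + C3) * |j| := by ring
    have hder : ∀ t ∈ Icc (0 : ℝ) s, ∃ β' χ' : ℝ, HasDerivAt J β' t ∧ HasDerivAt W χ' t ∧
        |β'| ≤ (K ^ 2 + 1) * (C3 * (1 + C3) * |j|) ∧ |χ'| ≤ (K ^ 2 + 1) * (C3 * (1 + C3) * |j|) := by
      intro t ht
      obtain ⟨β', χ', l1, l2, l3, l4⟩ := NTP_lsy (one_le_pow₀ hK) (hNPL ε s X h J W J W e6 hX (hS.pr s) (hS.pr s)).1 ht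
      have l5 : (K ^ 2 + 1) * (|J t| + |W t|) ≤ (K ^ 2 + 1) * (C3 * (1 + C3) * |j|) := mul_le_mul_of_nonneg_left (hdec t ht) (by positivity)
      exact ⟨β', χ', l1, l2, l3.trans l5, l4.trans l5⟩
    have m1 := NTP_mv (f := J) hs (fun t ht => by
      obtain ⟨β', χ', l1, l2, l3, l4⟩ := hder t ht
      exact ⟨β', l1, l3⟩)
    have m2 := NTP_mv (f := W) hs (fun t ht => by
      obtain ⟨β', χ', l1, l2, l3, l4⟩ := hder t ht
      exact ⟨χ', l2, l4⟩)
    rw [hJ] at m1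
    rw [hW] at m2
    have m3 : |stn ε X (X.f s h) j - stn ε X h j| ≤ |stn ε X (X.f s h) j - W s| + |W s - stn ε X h j| := abs_sub_le _ _ _
    rw [abs_sub_comm j] at b
    have m4 : C3 * |J s - j| ≤ C3 * ((K ^ 2 + 1) * (C3 * (1 + C3) * |j|) * s) := mul_le_mul_of_nonneg_left m1 (by linarith)
    have m5 : C3 * ((K ^ 2 + 1) * (C3 * (1 + C3) * |j|) * s) + (K ^ 2 + 1) * (C3 * (1 + C3) * |j|) * s = Dc * (|j| * s) := by
      rw [hDc]; ring
    linarith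
  have sh' : ∀ (h : SL(2, ℝ)) (j s : ℝ), |j| ≤ ε / C → |stn ε X (X.f s h) j - stn ε X h j| ≤ Dc * (|j| * |s|) := by
    intro h j s hj
    rcases le_total 0 s with hs | hs
    · rw [abs_of_nonneg hs]
      exact sh h j s hj hs
    · have hh : X.f (-s) (X.f s h) = h := by
        rw [← hX.flw.add, neg_add_cancel, hX.flw.zero]
      have b := sh (X.f s h) j (-s) hj (by linarith)
      rw [hh, abs_sub_comm] at b
      rw [abs_of_nonpos hs]
      exact b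
  have tr : ∀ (g E : SL(2, ℝ)) (j : ℝ), |j| ≤ ε / C → |stn ε X (g * E) j - stn ε X g j| ≤ C * |j| * nm E := by
    intro g E j hj
    have hE0 := h0.1 E
    rcases le_or_gt (nm E) (1 / (C4 * C5)) with hE | hE
    · have hE5 : nm E ≤ 1 / C5 := hE.trans (one_div_le_one_div_of_le (by linarith) (by nlinarith))
      obtain ⟨s, J0, W0, n1, n2, n3⟩ := hNDM X g E hX hE5
      have hE4 : C5 * nm E ≤ 1 / C4 := by
        rw [le_div_iff₀ (by positivity)] at hE ⊢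
        linarith
      obtain ⟨J, W, hS, hJ, hW⟩ := key g j hj
      obtain ⟨J', W', hS', hJ', hW'⟩ := key (g * pj X g J0 W0) j hj
      have b := hNLT X g J0 W0 J W J' W' hX (n2.trans hE4) (NTP_mono hS e4) (NTP_mono hS' e4) (by rw [hJ, hJ'])
      rw [hJ, hW, hW', abs_sub_comm] at b
      have b2 := sh' (g * pj X g J0 W0) j s hj
      rw [← n3] at b2
      have b3 := abs_sub_le (stn ε X (g * E) j) (stn ε X (g * pj X g J0 W0) j) (stn ε X g j)
      have b4 : C4 * |j| * (|J0| + |W0|) ≤ C4 * |j| * (C5 * nm E) := by gcongr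
      have b5 : Dc * (|j| * |s|) ≤ Dc * (|j| * (C5 * nm E)) := by gcongr
      have b6 : (C4 * C5 + Dc * C5) * (|j| * nm E) ≤ C * (|j| * nm E) := by gcongr
      linarith
    · have b1 := (bds g j hj).1
      have b2 := (bds (g * E) j hj).1
      have b3 := abs_sub (stn ε X (g * E) j) (stn ε X g j)
      have b4 : 1 ≤ C4 * C5 * nm E := by
        rw [div_lt_iff₀ (by positivity)] at hE
        linarith
      have b5 : 2 * C3 * |j| * 1 ≤ 2 * C3 * |j| * (C4 * C5 * nm E) := by gcongr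
      have b6 : 2 * C3 * (C4 * C5) * (|j| * nm E) ≤ C * (|j| * nm E) := by gcongr
      linarith
  refine ⟨fun g j hj => ⟨key g j hj, ?_, ?_, (bds g j hj).2.2⟩, fun g j j' hj hj' => ?_, tr, ?_, ?_⟩
  · exact (bds g j hj).1.trans (by gcongr)
  · exact (bds g j hj).2.1.trans (by gcongr)
  · exact (lip g j j' hj hj').trans (by gcongr)
  · intro g r j1 j2 j3 j4 hr q1 q2 q3 q4
    obtain ⟨J1, W1, hS1, hJ1, hW1⟩ := key g j1 (q1.trans hr)
    obtain ⟨J2, W2, hS2, hJ2, hW2⟩ := key g j2 (q2.trans hr)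
    obtain ⟨J3, W3, hS3, hJ3, hW3⟩ := key g j3 (q3.trans hr)
    obtain ⟨J4, W4, hS4, hJ4, hW4⟩ := key g j4 (q4.trans hr)
    have b := ((hNST ε X g J1 W1 hε e3 hX hS1).2 J2 W2 hS2).2 r J3 W3 J4 W4 hS3 hS4 (by rw [hJ1]; exact q1) (by rw [hJ2]; exact q2)
      (by rw [hJ3]; exact q3) (by rw [hJ4]; exact q4)
    rw [hJ1, hW1, hJ2, hW2, hJ3, hW3, hJ4, hW4] at b
    have hr0 : 0 ≤ r := (abs_nonneg _).trans q1
    refine b.trans ?_
    gcongr
  · have small : ∀ (g : SL(2, ℝ)) (j : ℝ), |j| ≤ ε / C → |j| + |stn ε X g j| ≤ 1 / C1 := by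
      intro g j hj
      have b1 := (bds g j hj).1
      have b2 : (1 + C3) * |j| ≤ (1 + C3) * (ε / C) := by gcongr
      have b3 : (1 + C3) * (ε / C) ≤ 1 / C1 := by
        rw [← mul_div_assoc, div_le_div_iff₀ (by positivity) (by positivity)]
        have : (1 + C3) * ε * C1 ≤ (1 + C3) * 1 * C1 := by gcongr
        linarith
      linarith
    obtain ⟨-, -, -, -, hpj, -⟩ := hNCH X hX
    have hG : ContinuousOn (fun x : SL(2, ℝ) × ℝ => pj X x.1 x.2 (stn ε X x.1 x.2)) (univ ×ˢ Icc (-(ε / C)) (ε / C)) := by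
      intro x0 hx0
      have hj0 : |x0.2| ≤ ε / C := abs_le.2 hx0.2
      apply NTP_tend
      have hlim : Tendsto (fun x : SL(2, ℝ) × ℝ => C1 * (|x0.2 - x.2| + (C3 * |x0.2 - x.2| + C * (ε / C) * nm (x0.1⁻¹ * x.1)) +
          nm (x0.1⁻¹ * x.1) * (|x0.2| + |stn ε X x0.1 x0.2|))) (𝓝[univ ×ˢ Icc (-(ε / C)) (ε / C)] x0) (𝓝 0) := by
        have hc : Continuous (fun x : SL(2, ℝ) × ℝ => C1 * (|x0.2 - x.2| + (C3 * |x0.2 - x.2| + C * (ε / C) * nm (x0.1⁻¹ * x.1)) +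
            nm (x0.1⁻¹ * x.1) * (|x0.2| + |stn ε X x0.1 x0.2|))) := by
          have hn : Continuous (fun x : SL(2, ℝ) × ℝ => nm (x0.1⁻¹ * x.1)) := h0.2.2.2.2.2.2.1.comp (continuous_const.mul continuous_fst)
          fun_prop
        have hc0 := hc.tendsto x0
        have hz : nm (x0.1⁻¹ * x0.1) = 0 := by rw [inv_mul_cancel]; exact (h0.2.1 1).2 rfl
        rw [hz, sub_self] at hc0
        simp only [abs_zero, mul_zero, zero_mul, add_zero] at hc0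
        exact hc0.mono_left nhdsWithin_le_nhds
      refine squeeze_zero' (Eventually.of_forall fun _ => h0.1 _) ?_ hlim
      filter_upwards [self_mem_nhdsWithin] with x hx
      have hj : |x.2| ≤ ε / C := abs_le.2 hx.2
      have hgE : x0.1 * (x0.1⁻¹ * x.1) = x.1 := mul_inv_cancel_left _ _
      have b := (hpj x0.1 (x0.1⁻¹ * x.1) x0.2 (stn ε X x0.1 x0.2) x.2 (stn ε X x.1 x.2) (small _ _ hj0) (small _ _ hj)).2.2
      rw [hgE] at b
      refine b.trans ?_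
      have b2 : |stn ε X x0.1 x0.2 - stn ε X x.1 x.2| ≤ C3 * |x0.2 - x.2| + C * (ε / C) * nm (x0.1⁻¹ * x.1) := by
        have b3 := abs_sub_le (stn ε X x0.1 x0.2) (stn ε X x0.1 x.2) (stn ε X x.1 x.2)
        have b4 := lip x0.1 x0.2 x.2 hj0 hj
        have b5 := tr x0.1 (x0.1⁻¹ * x.1) x.2 hj
        rw [hgE, abs_sub_comm] at b5
        have b6 : C * |x.2| * nm (x0.1⁻¹ * x.1) ≤ C * (ε / C) * nm (x0.1⁻¹ * x.1) :=
          mul_le_mul_of_nonneg_right (mul_le_mul_of_nonneg_left hj (by linarith)) (h0.1 _)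
        linarith
      gcongr
    exact continuousOn_fst.mul hG

end

end Pool.Agent.VNE
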